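import Mathlib
import Pool.Agent.Q199.BF.Main

/-!
# The continuous theory of the hyperfinite II_1 factor is not simple

Idea: let `I` be an uncountable set and let `M` be the tracial von Neumann algebra tensor product of
copies of the `2 × 2` matrices indexed by `I × (ℕ ∪ {∞})`. By back and forth the value of a formula
at elements of finite level depends only on the pattern of the positions, so `M` is elementarily
equivalent to the hyperfinite II_1 factor. Let `e (a, n)` be the projection of trace `1/2` in the
position `(a, n)`, let `B` consist of the `e (a, 0)` and the `e (a, ∞)`, and let `p(x)` be a
completion of the partial type `x* e (a, ∞) x = e (a, 0)` for all `a` in `I`, which is finitely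
satisfied in `M` by products of flips. A separable subset `A` of `B` is countable. Choose `b` in `I`
that does not occur in `A`. Replacing `e (b, 0)` by `e (b, n)`, `n = 0, 1, …`, and keeping all the
other elements of `B`, we get a sequence of copies of `B` in `M`, starting with `B`, which is
indiscernible over `A`; and `p` divides over `A` along this sequence, since the projections
`e (b, 0)` and `e (b, 1)` are different.
-/

set_option autoImplicit false

namespace Pool.Agent.Results.MP_baa3fb_lc.NotSimple

open Pool.Agent.H504R3.S Q199.BF

/-- The theory of the hyperfinite II_1 factor is not simple: there are a model `M` of it, a set
`B ⊆ M` and a type over `B` that divides over every separable subset of `B`. -/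
theorem result (R : Str) (hR : R.IsHyperfinite) : ¬ HasSimpleTheory R :=
  not_simple R hR

end Pool.Agent.Results.MP_baa3fb_lc.NotSimple
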